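import Mathlib
import Pool.Agent.N876.CG.ModE

/-!
# The kernels of the powers of `Φ - Q ^ n` on `H(X) ⊗ M`
-/

set_option autoImplicit false
set_option linter.unusedSectionVars false

open CategoryTheory AlgebraicGeometry
open scoped TensorProduct

universe u

namespace Pool.Agent.Helper17.BG

open Module Polynomial Pool.Agent.H914 Pool.Agent.H914.VarClass Pool.Agent.H914.VarClass.Obj
  Pool.Agent.W492.BB Pool.Agent.W550.Corr Pool.Agent.W484.TB Pool.Agent.W484.CH
  Pool.Agent.N876.CG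

/-- The convolution of a function with the coefficients of a polynomial. -/
noncomputable def conv (P : ℕ[X]) (f : ℤ → ℕ) (i : ℤ) : ℕ := P.sum fun l c => c * f (i - l)

theorem conv_eq_sum (P : ℕ[X]) (f : ℤ → ℕ) (i : ℤ) {N : ℕ} (hN : P.natDegree < N) :
    conv P f i = ∑ l ∈ Finset.range N, P.coeff l * f (i - l) :=
  Polynomial.sum_over_range' P (fun l => by rw [zero_mul]) N hN

theorem conv_add (P Q : ℕ[X]) (f : ℤ → ℕ) (i : ℤ) :
    conv (P + Q) f i = conv P f i + conv Q f i := by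
  unfold conv
  exact Polynomial.sum_add_index P Q _ (fun l => by rw [zero_mul])
    fun l a b => by rw [add_mul]

theorem conv_monomial (l c : ℕ) (f : ℤ → ℕ) (i : ℤ) :
    conv (Polynomial.monomial l c) f i = c * f (i - l) := by
  unfold conv
  exact Polynomial.sum_monomial_index c _ (by rw [zero_mul])

theorem conv_sum {α : Type*} (s : Finset α) (P : α → ℕ[X]) (f : ℤ → ℕ) (i : ℤ) :
    conv (∑ a ∈ s, P a) f i = ∑ a ∈ s, conv (P a) f i := by
  classical
  induction s using Finset.induction_on with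
  | empty => simp [conv]
  | insert a s ha ih => rw [Finset.sum_insert ha, Finset.sum_insert ha, conv_add, ih]

theorem conv_mul (P Q : ℕ[X]) (f : ℤ → ℕ) (i : ℤ) :
    conv (P * Q) f i = conv P (conv Q f) i := by
  induction P using Polynomial.induction_on' with
  | add P R hP hR => rw [add_mul, conv_add, conv_add, hP, hR]
  | monomial l c =>
    rw [conv_monomial]
    induction Q using Polynomial.induction_on' with
    | add Q R hQ hR => rw [mul_add, conv_add, hQ, hR, conv_add, mul_add]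
    | monomial m d =>
      rw [Polynomial.monomial_mul_monomial, conv_monomial, conv_monomial, mul_assoc]
      congr 3
      push_cast
      ring

theorem conv_one (f : ℤ → ℕ) (i : ℤ) : conv 1 f i = f i := by
  rw [← Polynomial.monomial_zero_one, conv_monomial]
  simp

section

variable {k : Type u} [Field k] {𝒱 : VarClass k} {C : TheoryData.{u, 0, 0} 𝒱 ℚ} {K : Type}
  [Field K] [CharZero K] {H : WeilTheoryData.{u, 0, 0} C K} [hC : IsChow C] [hH : IsWeil H]
  {M : Type} [AddCommGroup M] [Module K M]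

variable (H) in
/-- The Frobenius minus `Q ^ n`. -/
noncomputable def opF (F : ∀ X : 𝒱.Obj, X ⟶ X) (Q : ℕ) (μ : Module.End K M) (X : 𝒱.Obj)
    (n : ℤ) : Module.End K (H.A X ⊗[K] M) :=
  TensorProduct.map (H.pull (F X)).toLinearMap μ - ((Q : K) ^ n) • (1 : Module.End K _)

variable (H) in
/-- The kernel of the power with the exponent `s` in the part of degree `2 n + t`. -/
noncomputable def kern (W : ℤ → Submodule K M) (t : ℤ) (F : ∀ X : 𝒱.Obj, X ⟶ X) (Q : ℕ)
    (μ : Module.End K M) (s : ℕ) (X : 𝒱.Obj) (n : ℤ) : Submodule K (H.A X ⊗[K] M) :=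
  part H W t X n ⊓ LinearMap.ker (opF H F Q μ X n ^ s)

variable {W : ℤ → Submodule K M} {t : ℤ} {F : ∀ X : 𝒱.Obj, X ⟶ X} {Q : ℕ} {μ : Module.End K M}
  {s : ℕ}

theorem mem_kern {X : 𝒱.Obj} {n : ℤ} {v : H.A X ⊗[K] M} :
    v ∈ kern H W t F Q μ s X n ↔ v ∈ part H W t X n ∧ (opF H F Q μ X n ^ s) v = 0 :=
  Submodule.mem_inf.trans (and_congr Iff.rfl LinearMap.mem_ker)

theorem opF_eq {G : ∀ X : 𝒱.Obj, ℤ → Submodule K (H.A X ⊗[K] M)} {X : 𝒱.Obj} (n : ℤ)
    (v : H.A X ⊗[K] M) : opF H F Q μ X n v = Del (modT H M G) (phiM G μ) F Q X n v :=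
  (Del_modT (G := G) n v).symm

theorem opF_pow {G : ∀ X : 𝒱.Obj, ℤ → Submodule K (H.A X ⊗[K] M)} {X : 𝒱.Obj} (n : ℤ) (s : ℕ)
    (v : H.A X ⊗[K] M) :
    (opF H F Q μ X n ^ s) v = (Del (modT H M G) (phiM G μ) F Q X n ^ s) v := by
  induction s generalizing v with
  | zero => rfl
  | succ s ih =>
    rw [pow_succ, Module.End.mul_apply, ih, opF_eq (G := G)]
    exact (congrArg (fun e : Module.End ℚ ((modT H M G).M X) => e v)
      (pow_succ (Del (modT H M G) (phiM G μ) F Q X n) s)).symm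

theorem opF_act (hQ : Q ≠ 0) (hF : ∀ X, IsFrobenius C (F X) Q)
    (hprod : ∀ X Y, F (X.prod Y) = prodMap (F X) (F Y)) (hS : IsStandard H)
    {X Y : 𝒱.Obj} {i j : ℤ} {Γ : C.A (X.prod Y)} (hΓ : C.Deg (X.dim + j) Γ)
    (v : H.A X ⊗[K] M) :
    opF H F Q μ Y (i + j) (actM H M Γ v) = (Q : K) ^ j • actM H M Γ (opF H F Q μ X i v) := by
  have hT : IsCorrTheory (modT H M (part H (fun _ : ℤ => (⊥ : Submodule K M)) 0)) :=
    modT_corr fun hΓ hv => part_act hΓ hv
  have h1 := del_corr hT (φ := phiM (part H (fun _ : ℤ => (⊥ : Submodule K M)) 0) μ)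
    (fun Γ t => phiM_comm Γ t) hQ hF hprod hS (i := i) hΓ v
  rw [opF_eq (G := part H (fun _ : ℤ => (⊥ : Submodule K M)) 0),
    opF_eq (G := part H (fun _ : ℤ => (⊥ : Submodule K M)) 0)]
  refine h1.trans ?_
  refine (modT_smul (G := part H (fun _ : ℤ => (⊥ : Submodule K M)) 0) _ _).trans ?_
  push_cast
  rfl

theorem opF_pow_act (hQ : Q ≠ 0) (hF : ∀ X, IsFrobenius C (F X) Q)
    (hprod : ∀ X Y, F (X.prod Y) = prodMap (F X) (F Y)) (hS : IsStandard H)
    {X Y : 𝒱.Obj} {i j : ℤ} {Γ : C.A (X.prod Y)} (hΓ : C.Deg (X.dim + j) Γ) (s : ℕ)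
    (v : H.A X ⊗[K] M) :
    (opF H F Q μ Y (i + j) ^ s) (actM H M Γ v) =
      ((Q : K) ^ j) ^ s • actM H M Γ ((opF H F Q μ X i ^ s) v) := by
  induction s generalizing v with
  | zero => simp
  | succ s ih =>
    rw [pow_succ, Module.End.mul_apply, opF_act hQ hF hprod hS hΓ, map_smul, ih, smul_smul,
      pow_succ (opF H F Q μ X i), Module.End.mul_apply]
    congr 1
    ring

theorem kern_act (hQ : Q ≠ 0) (hF : ∀ X, IsFrobenius C (F X) Q)
    (hprod : ∀ X Y, F (X.prod Y) = prodMap (F X) (F Y)) (hS : IsStandard H)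
    {X Y : 𝒱.Obj} {i j : ℤ} {Γ : C.A (X.prod Y)} {v : H.A X ⊗[K] M} (hΓ : C.Deg (X.dim + j) Γ)
    (hv : v ∈ kern H W t F Q μ s X i) : actM H M Γ v ∈ kern H W t F Q μ s Y (i + j) := by
  rw [mem_kern] at hv ⊢
  refine ⟨part_act hΓ hv.1, ?_⟩
  rw [opF_pow_act hQ hF hprod hS hΓ, hv.2, map_zero, smul_zero]

theorem kern_corr (hQ : Q ≠ 0) (hF : ∀ X, IsFrobenius C (F X) Q)
    (hprod : ∀ X Y, F (X.prod Y) = prodMap (F X) (F Y)) (hS : IsStandard H) :
    IsCorrTheory (modT H M (kern H W t F Q μ s)) :=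
  modT_corr fun hΓ hv => kern_act hQ hF hprod hS hΓ hv

theorem kern_rel (hQ : Q ≠ 0) (hF : ∀ X, IsFrobenius C (F X) Q)
    (hprod : ∀ X Y, F (X.prod Y) = prodMap (F X) (F Y)) (hS : IsStandard H) {χ : ℚ[X]}
    (hχ : aeval μ (χ.map (algebraMap ℚ K)) = 0) :
    RelTheory (modT H M (kern H W t F Q μ s)) (phiM (kern H W t F Q μ s) μ) F Q χ where
  corr := kern_corr hQ hF hprod hS
  comm := fun Γ t => phiM_comm Γ t
  power := fun X n v hv => ⟨s, by
    exact (opF_pow (G := kern H W t F Q μ s) n s v).symm.trans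
      (mem_kern.1 (modT_mem.1 hv)).2⟩
  poly := fun X n v _ => phiM_root hχ v

theorem kern_nil (V : 𝒱.Obj) : NilT H (modT H M (kern H W t F Q μ s)) V := by
  intro Γ hΓ h0
  obtain ⟨m, hm⟩ := nil_modT (G := part H W t) (μ := μ) (F := F) (Q := Q) V Γ hΓ h0
  exact ⟨m, hm⟩

/-- **The decomposition of the kernels.** -/
theorem kern_equiv {A Z : 𝒱.Obj} {J : Type} [Fintype J] {deg : J → ℕ} {D E : J → C.A A}
    (h : IsDual A Z deg D E) (hQ : Q ≠ 0) (hF : ∀ X, IsFrobenius C (F X) Q)
    (hprod : ∀ X Y, F (X.prod Y) = prodMap (F X) (F Y)) (hS : IsStandard H)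
    (hK : HasKunneth (modT H M (kern H W t F Q μ s)) A Z deg D) (n : ℤ) :
    Nonempty (kern H W t F Q μ s (A.prod Z) n ≃ₗ[K]
      (∀ j, kern H W t F Q μ s Z (n - deg j))) := by
  classical
  have hT := kern_corr (W := W) (t := t) (μ := μ) (s := s) hQ hF hprod hS
  have hpe : ∀ (i j : J) (z : H.A Z ⊗[K] M), actM H M (pairBy C Z (E j))
      (actM H M (extBy C Z (D i)) z) = if i = j then z else 0 := fun i j z =>
    act_pair_ext (T := modT H M (kern H W t F Q μ s)) hT h i j z
  have hexp : ∀ v ∈ kern H W t F Q μ s (A.prod Z) n,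
      v = ∑ j, actM H M (extBy C Z (D j)) (actM H M (pairBy C Z (E j)) v) := by
    intro v hv
    obtain ⟨z, h1⟩ : ∃ z : J → H.A Z ⊗[K] M, v = ∑ j, actM H M (extBy C Z (D j)) (z j) := by
      obtain ⟨z, ⟨-, hz⟩, -⟩ := hK n v hv
      exact ⟨z, hz⟩
    have h2 : ∀ j, actM H M (pairBy C Z (E j)) v = z j := by
      intro j
      rw [h1, map_sum, Finset.sum_congr rfl fun i _ => hpe i j (z i), Finset.sum_ite_eq',
        if_pos (Finset.mem_univ _)]
    rw [Finset.sum_congr rfl fun j _ => by rw [h2 j]]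
    exact h1
  refine ⟨{
    toFun := fun x j => ⟨actM H M (pairBy C Z (E j)) x, by
      have h1 := act_pair_mem (T := modT H M (kern H W t F Q μ s)) hT h j x.2
      rwa [← sub_eq_add_neg] at h1⟩
    map_add' := fun x y => by
      funext j
      apply Subtype.ext
      simp only [Submodule.coe_add, Pi.add_apply, map_add]
    map_smul' := fun c x => by
      funext j
      apply Subtype.ext
      simp only [Submodule.coe_smul, Pi.smul_apply, map_smul, RingHom.id_apply]
    invFun := fun z => ⟨∑ j, actM H M (extBy C Z (D j)) (z j),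
      Submodule.sum_mem _ fun j _ => by
        have h1 := act_ext_mem (T := modT H M (kern H W t F Q μ s)) hT h j (z j).2
        rwa [sub_add_cancel] at h1⟩
    left_inv := fun x => by
      apply Subtype.ext
      exact (hexp x x.2).symm
    right_inv := fun z => ?_ }⟩
  funext j
  apply Subtype.ext
  show actM H M (pairBy C Z (E j)) (∑ l, actM H M (extBy C Z (D l)) (z l)) = z j
  rw [map_sum, Finset.sum_congr rfl fun i _ => hpe i j _, Finset.sum_ite_eq',
    if_pos (Finset.mem_univ _)]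

/-- **The comparison of two kernels.** -/
theorem kern_le_iff {A Z : 𝒱.Obj} {J : Type} [Fintype J] {deg : J → ℕ} {D E : J → C.A A}
    (h : IsDual A Z deg D E) (hQ : Q ≠ 0) (hF : ∀ X, IsFrobenius C (F X) Q)
    (hprod : ∀ X Y, F (X.prod Y) = prodMap (F X) (F Y)) (hS : IsStandard H) (s' : ℕ)
    (hK : HasKunneth (modT H M (kern H W t F Q μ s)) A Z deg D) (n : ℤ) :
    kern H W t F Q μ s (A.prod Z) n ≤ kern H W t F Q μ s' (A.prod Z) n ↔
      ∀ j, kern H W t F Q μ s Z (n - deg j) ≤ kern H W t F Q μ s' Z (n - deg j) := by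
  classical
  have hT := kern_corr (W := W) (t := t) (μ := μ) (s := s) hQ hF hprod hS
  have hT' := kern_corr (W := W) (t := t) (μ := μ) (s := s') hQ hF hprod hS
  have hpe : ∀ (i j : J) (z : H.A Z ⊗[K] M), actM H M (pairBy C Z (E j))
      (actM H M (extBy C Z (D i)) z) = if i = j then z else 0 := fun i j z =>
    act_pair_ext (T := modT H M (kern H W t F Q μ s)) hT h i j z
  constructor
  · intro hle j z hz
    have h1 : actM H M (extBy C Z (D j)) z ∈ kern H W t F Q μ s (A.prod Z) (n - deg j + deg j) :=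
      act_ext_mem (T := modT H M (kern H W t F Q μ s)) hT h j hz
    rw [sub_add_cancel] at h1
    have h2 : actM H M (pairBy C Z (E j)) (actM H M (extBy C Z (D j)) z) ∈
        kern H W t F Q μ s' Z (n + -deg j) :=
      act_pair_mem (T := modT H M (kern H W t F Q μ s')) hT' h j (hle h1)
    rw [hpe, if_pos rfl, ← sub_eq_add_neg] at h2
    exact h2
  · intro hle v hv
    obtain ⟨z, hz, h1⟩ : ∃ z : J → H.A Z ⊗[K] M,
        (∀ j, z j ∈ kern H W t F Q μ s Z (n - deg j)) ∧
        v = ∑ j, actM H M (extBy C Z (D j)) (z j) := by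
      obtain ⟨z, ⟨hz0, hz⟩, -⟩ := hK n v hv
      exact ⟨z, hz0, hz⟩
    rw [h1]
    refine Submodule.sum_mem _ fun j _ => ?_
    have h2 : actM H M (extBy C Z (D j)) (z j) ∈
        kern H W t F Q μ s' (A.prod Z) (n - deg j + deg j) :=
      act_ext_mem (T := modT H M (kern H W t F Q μ s')) hT' h j (hle j (hz j))
    rwa [sub_add_cancel] at h2

theorem kern_mono {X : 𝒱.Obj} {n : ℤ} (s : ℕ) :
    kern H W t F Q μ s X n ≤ kern H W t F Q μ (s + 1) X n := by
  intro v hv
  rw [mem_kern] at hv ⊢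
  refine ⟨hv.1, ?_⟩
  rw [pow_succ', Module.End.mul_apply, hv.2, map_zero]

/-- The number of the classes of given degree in a dual system. -/
theorem card_deg (hS : IsStandard H) {A Z : 𝒱.Obj} {J : Type} [Fintype J] {deg : J → ℕ}
    {D E : J → C.A A} (h : IsDual A Z deg D E)
    (hN : ∀ n, AK H A n ≤ Submodule.span K {c | ∃ j, deg j = n ∧ c = H.cl (D j)}) (n : ℕ) :
    Fintype.card {j // deg j = n} = Module.finrank K (AK H A n) := by
  have hli := linearIndependent_of_dual (K := K) hS h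
  have h1 : LinearIndependent K (fun j : {j // deg j = n} => H.cl (D j.1)) :=
    hli.comp _ Subtype.val_injective
  have h2 : AK H A n = Submodule.span K (Set.range fun j : {j // deg j = n} => H.cl (D j.1)) := by
    apply le_antisymm
    · refine (hN n).trans (Submodule.span_mono ?_)
      rintro c ⟨j, hj, rfl⟩
      exact ⟨⟨j, hj⟩, rfl⟩
    · rw [Submodule.span_le]
      rintro c ⟨⟨j, hj⟩, rfl⟩
      refine Submodule.subset_span ⟨D j, ?_, rfl⟩
      have h3 := h.left j
      rw [hj] at h3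
      exact h3
  rw [h2, finrank_span_eq_card h1]

variable [Module.Finite K M]

/-- **The dimensions of the kernels.** -/
theorem finrank_kern {A Z : 𝒱.Obj} {J : Type} [Fintype J] {deg : J → ℕ} {D E : J → C.A A}
    (h : IsDual A Z deg D E) (hQ : Q ≠ 0) (hF : ∀ X, IsFrobenius C (F X) Q)
    (hprod : ∀ X Y, F (X.prod Y) = prodMap (F X) (F Y)) (hS : IsStandard H)
    (hN : ∀ n, AK H A n ≤ Submodule.span K {c | ∃ j, deg j = n ∧ c = H.cl (D j)})
    (hK : HasKunneth (modT H M (kern H W t F Q μ s)) A Z deg D) (n : ℤ) :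
    Module.finrank K (kern H W t F Q μ s (A.prod Z) n) = ∑ l ∈ Finset.range (A.dim + 1),
      Module.finrank K (AK H A l) * Module.finrank K (kern H W t F Q μ s Z (n - l)) := by
  classical
  obtain ⟨e⟩ := kern_equiv h hQ hF hprod hS hK n
  have hfin : Module.Finite K (H.A Z) := hS.finite Z
  have hfree : ∀ j, Module.Free K (kern H W t F Q μ s Z (n - deg j)) := fun j =>
    @Module.Free.of_divisionRing K (kern H W t F Q μ s Z (n - deg j)) _
      (Submodule.addCommGroup _) _
  have hfin' : ∀ j, Module.Finite K (kern H W t F Q μ s Z (n - deg j)) := fun j =>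
    inferInstance
  rw [e.finrank_eq, Module.finrank_pi_fintype]
  rw [← Finset.sum_fiberwise_of_maps_to (g := deg) (t := Finset.range (A.dim + 1)) (fun j _ =>
    Finset.mem_range.2 (Nat.lt_succ_of_le (h.le j)))]
  refine Finset.sum_congr rfl fun l _ => ?_
  rw [Finset.sum_congr rfl (g := fun _ => Module.finrank K (kern H W t F Q μ s Z (n - l)))
    fun j hj => by rw [(Finset.mem_filter.1 hj).2]]
  rw [Finset.sum_const, smul_eq_mul, ← card_deg hS h hN l, Fintype.card_subtype]

end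

end Pool.Agent.Helper17.BG
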