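import Pool.Agent.Helper17.BG.JordDefs
import Pool.Agent.Helper17.BG.JordLin
import Pool.Agent.W484.CK.Main
import Pool.Agent.W484.CK.Motivic

/-!
# Jordan blocks of the Frobenius: proof
-/

set_option autoImplicit false

open Finset Polynomial CategoryTheory AlgebraicGeometry
open scoped TensorProduct

namespace Pool.Agent.Helper17.BG

open Pool.Agent.H914 Pool.Agent.H914.VarClass Pool.Agent.H914.VarClass.Obj Pool.Agent.W492.BB
  Pool.Agent.W484.CK Pool.Agent.N876.GB3

variable {κ : Type} [Field κ] [Fintype κ] {ι : Type}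
    {𝒱 : VarClass κ} {A : TheoryData.{0, 0, 0} 𝒱 ℚ} [IsChow A] {K : Type} [Field K]
    [IsAlgClosed K] [CharZero K] {H : WeilTheoryData.{0, 0, 0} A K} [IsWeil H]
    {F : ∀ X : 𝒱.Obj, X ⟶ X} {X : ι → 𝒱.Obj} {Z : 𝒱.Obj} {χ : ℚ[X]} {S : ι → Set K}
    {q : ℕ} {U : Homology K}

omit [Fintype κ] [IsChow A] [IsAlgClosed K] [CharZero K] [IsWeil H] in
theorem kernelOf_eq (s : ℕ) (V : 𝒱.Obj) (i : ℤ) :
    kernelOf U H F q s V i = kern H U.W 0 F q U.μ s V (U.codim V i) := by
  have hpart : U.degreePart H V (2 * U.codim V i) =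
      Pool.Agent.N876.CG.part H U.W 0 V (U.codim V i) := by
    unfold Homology.degreePart Pool.Agent.N876.CG.part
    simp only [add_zero]
    rfl
  unfold kernelOf kern
  rw [hpart]
  rfl

omit [Fintype κ] [IsChow A] [IsAlgClosed K] [CharZero K] [IsWeil H] in
theorem nullity_eq (s : ℕ) (V : 𝒱.Obj) (i : ℤ) :
    nullity U H F q s V i = Module.finrank K (kern H U.W 0 F q U.μ s V (U.codim V i)) := by
  unfold nullity
  rw [kernelOf_eq]
  rfl

theorem conv_cyclePolynomial (V : 𝒱.Obj) (f : ℤ → ℕ) (i : ℤ) :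
    conv (cyclePolynomial H V) f i =
      ∑ l ∈ range (V.dim + 1), cycleRank H V (V.dim - l) * f (i - l) := by
  unfold cyclePolynomial
  rw [conv_sum]
  exact sum_congr rfl fun l _ => conv_monomial _ _ _ _

theorem cycleRank_eq (V : 𝒱.Obj) (c : ℕ) :
    cycleRank H V c = Module.finrank K (Pool.Agent.N876.CG.AK H V c) := rfl

theorem jordan_nullity
    (hsys : Pool.Agent.N876.CG.Cr H F q X Z S {ρ | aeval ρ χ = 0})
    (hχ0 : χ.coeff 0 ≠ 0) (hU : IsFiniteHomology U χ)
    (hμ : aeval U.μ (χ.map (algebraMap ℚ K)) = 0) (s : ℕ) {L : List ι} (hL : L.Nodup) (i : ℤ) :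
    nullity U H F q s (Pool.Agent.N876.CG.tw X Z L) i =
      conv (productPolynomial H X L) (nullity U H F q s Z) i := by
  have hfin := hU.finite
  have hq : q ≠ 0 := by have := hsys.one_lt; omega
  induction L generalizing i with
  | nil =>
    rw [productPolynomial, conv_one]
    rfl
  | cons i' L ih =>
    rw [List.nodup_cons] at hL
    obtain ⟨J, hJ, deg, D, E, h1, h2, h3⟩ := hsys.step hL.1 hL.2
    have hK := h3 _ _ χ hχ0 (fun ρ hρ => hρ)
      (kern_rel (M := U.M) (W := U.W) (t := 0) (s := s) hq hsys.frob hsys.prod hsys.std hμ)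
      (kern_nil _)
    have h4 := finrank_kern h1 hq hsys.frob hsys.prod hsys.std h2 hK
      (U.codim (Pool.Agent.N876.CG.tw X Z (i' :: L)) i)
    rw [productPolynomial, conv_mul, conv_cyclePolynomial, nullity_eq]
    refine h4.trans ?_
    rw [← Finset.sum_range_reflect]
    refine sum_congr rfl fun l hl => ?_
    have hl' : l ≤ (X i').dim := Nat.lt_succ_iff.1 (mem_range.1 hl)
    have h5 : (X i').dim + 1 - 1 - l = (X i').dim - l := by omega
    have h6 : U.codim (Pool.Agent.N876.CG.tw X Z (i' :: L)) i - ((X i').dim - l : ℕ) =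
        U.codim (Pool.Agent.N876.CG.tw X Z L) (i - l) := by
      unfold Homology.codim
      rw [Pool.Agent.N876.CG.tw, Obj.dim_prod, Nat.cast_sub hl']
      push_cast
      ring
    rw [h5, ← cycleRank_eq, ← ih hL.2, nullity_eq, h6]

theorem jordan_blocks
    (hsys : Pool.Agent.N876.CG.Cr H F q X Z S {ρ | aeval ρ χ = 0})
    (hpol : ∀ i, IsPolarized H (X i)) (hχ0 : χ.coeff 0 ≠ 0)
    (hμ : aeval U.μ (χ.map (algebraMap ℚ K)) = 0) (s s' : ℕ) {L : List ι} (hL : L.Nodup)
    (n : ℤ) :
    kern H U.W 0 F q U.μ s (Pool.Agent.N876.CG.tw X Z L) n ≤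
      kern H U.W 0 F q U.μ s' (Pool.Agent.N876.CG.tw X Z L) n ↔
      ∀ m : ℤ, n - Pool.Agent.N876.CG.dims X L ≤ m → m ≤ n →
        kern H U.W 0 F q U.μ s Z m ≤ kern H U.W 0 F q U.μ s' Z m := by
  have hq : q ≠ 0 := by have := hsys.one_lt; omega
  have hrel := kern_rel (M := U.M) (W := U.W) (t := 0) (s := s) hq hsys.frob hsys.prod
    hsys.std hμ
  exact hsys.induct (fun i => hpol i)
    (fun V n => kern H U.W 0 F q U.μ s V n ≤ kern H U.W 0 F q U.μ s' V n)
    _ _ χ hχ0 (fun ρ hρ => hρ) hrel (fun L => kern_nil _) (fun i V J _ deg D E h1 h2 n =>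
      kern_le_iff h1 hq hsys.frob hsys.prod hsys.std s' h2 n) hL n

/-- **The Jordan blocks.** -/
theorem jordan_main
    (hsys : Pool.Agent.N876.CG.Cr H F q X Z S {ρ | aeval ρ χ = 0})
    (hpol : ∀ i, IsPolarized H (X i)) (hχ0 : χ.coeff 0 ≠ 0) (hU : IsFiniteHomology U χ)
    (L : List ι) (hL : L.Nodup) : JordanConclusions U H F q X Z L := by
  have htw : ∀ L : List ι, productOf X Z L = Pool.Agent.N876.CG.tw X Z L := by
    intro L
    induction L with
    | nil => rfl
    | cons i L ih => rw [productOf, Pool.Agent.N876.CG.tw, ih]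
  have hdim : ∀ L : List ι, dimension X L = Pool.Agent.N876.CG.dims X L := by
    intro L
    induction L with
    | nil => rfl
    | cons i L ih => rw [dimension, Pool.Agent.N876.CG.dims, ih]
  have hdimV : ((productOf X Z L).dim : ℤ) = Z.dim + dimension X L := by
    clear hL
    induction L with
    | nil => simp [productOf, dimension]
    | cons i L ih =>
      rw [productOf, dimension, Obj.dim_prod]
      push_cast
      rw [ih]
      ring
  have hμ : aeval U.μ (χ.map (algebraMap ℚ K)) = 0 := by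
    refine LinearMap.ext fun x => ?_
    rw [Polynomial.aeval_endomorphism, Polynomial.sum_def,
      Polynomial.support_map_of_injective χ (algebraMap ℚ K).injective, LinearMap.zero_apply]
    refine Eq.trans (Finset.sum_congr rfl fun n _ => ?_) (hU.homology.root x)
    rw [Polynomial.coeff_map, Module.End.pow_apply, eq_ratCast]
  refine ⟨fun s i => ?_, fun s i => ?_⟩
  · rw [htw]
    exact jordan_nullity hsys hχ0 hU hμ s hL i
  · have hrange : ∀ (i : ℤ) (P : ℤ → Prop),
        (∀ m : ℤ, U.codim (productOf X Z L) i - Pool.Agent.N876.CG.dims X L ≤ m →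
          m ≤ U.codim (productOf X Z L) i → P m) ↔
        ∀ l : ℕ, l ≤ dimension X L → P (U.codim Z i + l) := by
      intro i P
      rw [← hdim L]
      unfold Homology.codim
      rw [hdimV]
      constructor
      · intro h1 l hl
        exact h1 _ (by omega) (by omega)
      · intro h1 m h2 h3
        obtain ⟨l, hl⟩ := Int.eq_ofNat_of_zero_le
          (show 0 ≤ m - ((Z.dim : ℤ) + U.e - i) by omega)
        have h4 := h1 l (by omega)
        have h5 : (Z.dim : ℤ) + U.e - i + l = m := by omega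
        rwa [h5] at h4
    have hB : ∀ (V : 𝒱.Obj) (i : ℤ), BlocksAtMost U H F q s V i ↔
        kern H U.W 0 F q U.μ (s + 1) V (U.codim V i) ≤
          kern H U.W 0 F q U.μ s V (U.codim V i) := by
      intro V i
      unfold BlocksAtMost
      rw [kernelOf_eq, kernelOf_eq]
      exact Iff.rfl
    have e2 : ∀ i l : ℤ, U.codim Z (i - l) = U.codim Z i + l := fun i l => by
      unfold Homology.codim
      ring
    have h1 := jordan_blocks hsys hpol hχ0 hμ (s + 1) s hL (U.codim (productOf X Z L) i)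
    rw [hB]
    simp only [hB, e2]
    rw [← hrange i fun m => kern H U.W 0 F q U.μ (s + 1) Z m ≤ kern H U.W 0 F q U.μ s Z m]
    rw [← htw L] at h1
    exact h1

end Pool.Agent.Helper17.BG
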