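import Pool.Agent.N876.GB3.Defs

/-!
# Jordan blocks of the Frobenius: definitions
-/

set_option autoImplicit false

open Finset Polynomial CategoryTheory AlgebraicGeometry

namespace Pool.Agent.Helper17.BG

open Pool.Agent.H914 Pool.Agent.H914.VarClass Pool.Agent.H914.VarClass.Obj Pool.Agent.W492.BB
  Pool.Agent.W484.CK Pool.Agent.N876.GB3

variable {κ : Type} [Field κ] {𝒱 : VarClass κ} {A : TheoryData.{0, 0, 0} 𝒱 ℚ} {K : Type} [Field K]

/-- The operator `Φ - q ^ n` on `R(X) = H(X) ⊗ M`, where `Φ` is the Frobenius endomorphism of `X × U`. -/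
noncomputable def shifted (U : Homology K) (H : WeilTheoryData.{0, 0, 0} A K)
    (F : ∀ X : 𝒱.Obj, X ⟶ X) (q : ℕ) (X : 𝒱.Obj) (n : ℤ) : Module.End K (U.R H X) :=
  U.Phi F X - (q : K) ^ n • 1

/-- The kernel of `(Frob - 1) ^ s` on `H_{2i}(X × U, ℚ_ℓ(i))`: the vectors `v` of degree `2 n` in `R(X)`
with `(Φ - q ^ n) ^ s v = 0`, `n = dim X + e - i`. -/
noncomputable def kernelOf (U : Homology K) (H : WeilTheoryData.{0, 0, 0} A K)
    (F : ∀ X : 𝒱.Obj, X ⟶ X) (q s : ℕ) (X : 𝒱.Obj) (i : ℤ) : Submodule K (U.R H X) :=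
  U.degreePart H X (2 * U.codim X i) ⊓ LinearMap.ker (shifted U H F q X (U.codim X i) ^ s)

/-- The dimension of the kernel of `(Frob - 1) ^ s` on `H_{2i}(X × U, ℚ_ℓ(i))`. -/
noncomputable def nullity (U : Homology K) (H : WeilTheoryData.{0, 0, 0} A K)
    (F : ∀ X : 𝒱.Obj, X ⟶ X) (q s : ℕ) (X : 𝒱.Obj) (i : ℤ) : ℕ :=
  Module.finrank K (kernelOf U H F q s X i)

/-- All Jordan blocks of the Frobenius with eigenvalue `1` on `H_{2i}(X × U, ℚ_ℓ(i))` have size at most
`s`. For `s = 1` this is `SS_i(X × U)`. -/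
def BlocksAtMost (U : Homology K) (H : WeilTheoryData.{0, 0, 0} A K) (F : ∀ X : 𝒱.Obj, X ⟶ X)
    (q s : ℕ) (X : 𝒱.Obj) (i : ℤ) : Prop :=
  kernelOf U H F q (s + 1) X i ≤ kernelOf U H F q s X i

/-- The dimension of the space generated by the classes of cycles of codimension `c` on `X`. -/
noncomputable def cycleRank (H : WeilTheoryData.{0, 0, 0} A K) (X : 𝒱.Obj) (c : ℕ) : ℕ :=
  Module.finrank K (Submodule.span K {a : H.A X | ∃ z : A.A X, A.Deg c z ∧ a = H.cl z})

/-- The polynomial `∑ r_l t ^ l`, where `r_l` is the dimension of the space generated by the classes of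
cycles of dimension `l` on `X`. -/
noncomputable def cyclePolynomial (H : WeilTheoryData.{0, 0, 0} A K) (X : 𝒱.Obj) : ℕ[X] :=
  ∑ l ∈ range (X.dim + 1), Polynomial.monomial l (cycleRank H X (X.dim - l))

/-- The product of the polynomials of the `X i`. -/
noncomputable def productPolynomial (H : WeilTheoryData.{0, 0, 0} A K) {ι : Type}
    (X : ι → 𝒱.Obj) : List ι → ℕ[X]
  | [] => 1
  | i :: L => cyclePolynomial H (X i) * productPolynomial H X L

/-- The conclusions for the product `V` of the `X i` with `i ∈ L` and of `Z`. -/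
structure JordanConclusions {ι : Type} (U : Homology K) (H : WeilTheoryData.{0, 0, 0} A K)
    (F : ∀ X : 𝒱.Obj, X ⟶ X) (q : ℕ) (X : ι → 𝒱.Obj) (Z : 𝒱.Obj) (L : List ι) : Prop where
  nullity : ∀ (s : ℕ) (i : ℤ), nullity U H F q s (productOf X Z L) i =
    (productPolynomial H X L).sum fun l c => c * nullity U H F q s Z (i - l)
  blocks : ∀ (s : ℕ) (i : ℤ), BlocksAtMost U H F q s (productOf X Z L) i ↔
    ∀ l : ℕ, l ≤ dimension X L → BlocksAtMost U H F q s Z (i - l)

/-- The Frobenius preserves the degrees and satisfies the polynomial `χ`, and the homology is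
finite-dimensional. -/
structure IsFiniteHomology (U : Homology K) (χ : ℚ[X]) : Prop where
  homology : IsHomology U χ
  finite : Module.Finite K U.M

end Pool.Agent.Helper17.BG
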