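import Pool.Agent.N179.TL.Defs
import Pool.Agent.N876.GB3.Defs

/-!
# Systems of varieties of K3 type: definitions
-/

set_option autoImplicit false

open Finset Polynomial CategoryTheory AlgebraicGeometry NumberField

namespace Pool.Agent.Helper17.BG

open Pool.Agent.H914 Pool.Agent.H914.VarClass Pool.Agent.H914.VarClass.Obj Pool.Agent.W492.BB
  Pool.Agent.W484.CK Pool.Agent.N876.GB3 Pool.Agent.N179.TL Pool.Agent.W517.K3

section

variable {p : ℕ} [Fact p.Prime] {K : Type} [Field K] [CharZero K]

/-- Up to a root of unity, `μ ^ e` is the product of `q ^ (e w)`, `q = p ^ m`, and of at most `n`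
conjugates of `α` (the conjugate `σ α` occurs `N σ` times), and this product is not balanced: for some
`σ` the conjugates `σ α` and its inverse, the complex conjugate, occur with different multiplicities. -/
def IsWord {E : Type} [Field E] [NumberField E] [IsCMField E] (p m e n : ℕ) (α : E) (μ : K) : Prop :=
  ∃ (N : (E →+* K) → ℕ) (w t : ℕ), 0 < t ∧ ∑ σ, N σ ≤ n ∧
    (∃ σ : E →+* K, N σ ≠ N (σ.comp (IsCMField.complexConj E : E →+* E))) ∧
    (μ ^ e) ^ t = (((p : K) ^ m) ^ (e * w) * ∏ σ : E →+* K, σ α ^ N σ) ^ t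

end

section defs

variable {κ : Type} [Field κ] {𝒱 : VarClass κ} {A : TheoryData.{0, 0, 0} 𝒱 ℚ} {K : Type} [Field K]

/-- The space `V` is generated by the subspace `P` (the classes of algebraic cycles) and a subspace `T`,
stable under `Φ` (the Frobenius), on which the eigenvalues are words in the conjugates of `α`
(`IsWord`): of the form `q ^ w`, `q = p ^ m`, times a product of at most `n` conjugates, not balanced, up to
roots of unity and after passing to the extension of degree `e` of the ground field. -/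
def IsK3Cohomology [CharZero K] (p m e n : ℕ) [Fact p.Prime] {E : Type} [Field E] [NumberField E]
    [IsCMField E] (α : E) {V : Type} [AddCommGroup V] [Module K V] (P : Submodule K V)
    (Φ : Module.End K V) : Prop :=
  ∃ (T : Submodule K V) (hT : ∀ t ∈ T, Φ t ∈ T), P ⊔ T = ⊤ ∧
    ∀ μ : K, Module.End.HasEigenvalue (Φ.restrict hT) μ → IsWord p m e n α μ

/-- `IsK3Cohomology` for an endomorphism of an algebra. -/
def IsK3Algebra [CharZero K] (p m e n : ℕ) [Fact p.Prime] {E : Type} [Field E] [NumberField E]
    [IsCMField E] (α : E) {V : Type} [Ring V] [Algebra K V] (P : Submodule K V)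
    (φ : V →ₐ[K] V) : Prop :=
  IsK3Cohomology p m e n α P (ofHom φ)

/-- The cohomology of `X` is generated by the classes of algebraic cycles and a subspace `T`, stable
under the Frobenius endomorphism `φ`, on which the eigenvalues are words in the conjugates of `α`. -/
def HasK3Type [CharZero K] (p m e n : ℕ) [Fact p.Prime] {E : Type} [Field E] [NumberField E]
    [IsCMField E] (α : E) (H : WeilTheoryData.{0, 0, 0} A K) {X : 𝒱.Obj} (φ : X ⟶ X) : Prop :=
  IsK3Algebra p m e n α (cycleSpan H X) (H.pull φ)

/-- `Φ` has the eigenvalue `β`. -/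
def HasEigenvalueOf {V : Type} [Ring V] [Algebra K V] (φ : V →ₐ[K] V) (β : K) : Prop :=
  (ofHom φ).HasEigenvalue β

/-- The numerical data: `κ` has `p ^ m` elements, `α i` is the Frobenius number of a K3 surface of height
`h i` over the field with `p ^ (m e i)` elements, with transcendental part of rank `b i`, and
`Admissible` holds. -/
structure IsK3Data (κ : Type) [Fintype κ] (p m : ℕ) [Fact p.Prime] {r : ℕ} {E : Fin r → Type}
    [∀ i, Field (E i)] [∀ i, NumberField (E i)] [∀ i, IsCMField (E i)] (α : ∀ i, E i)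
    (e h b n : Fin r → ℕ) (Γ : Set ℚ) : Prop where
  card : Fintype.card κ = p ^ m
  pos : ∀ i, 0 < e i
  number : ∀ i, IsK3Number p (m * e i) (α i) (h i) (b i)
  zero_mem : (0 : ℚ) ∈ Γ
  admissible : Admissible Γ h b (fun i => Module.finrank ℚ (E i) / 2)
    (fun i => localDegree p (α i)) n

/-- `F` is the Frobenius endomorphism of the varieties over `κ`, the varieties `X i` are of K3 type, and
the numbers `β ρ`, where `β` is an eigenvalue of the Frobenius on the cohomology of `Z` and `ρ` a root
of `χ`, are Weil numbers of some weight `w`, with slopes in `w / 2 + Γ` if `w` is even. -/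
structure IsK3System [Fintype κ] [CharZero K] (p m : ℕ) [Fact p.Prime] {r : ℕ} {E : Fin r → Type}
    [∀ i, Field (E i)] [∀ i, NumberField (E i)] [∀ i, IsCMField (E i)] (α : ∀ i, E i)
    (e n : Fin r → ℕ) (Γ : Set ℚ) (H : WeilTheoryData.{0, 0, 0} A K) (F : ∀ X : 𝒱.Obj, X ⟶ X)
    (X : Fin r → 𝒱.Obj) (Z : 𝒱.Obj) (χ : ℚ[X]) : Prop where
  standard : IsStandard H
  frobenius : ∀ X, IsFrobenius A (F X) (Fintype.card κ)
  product : ∀ X Y, F (X.prod Y) = prodMap (F X) (F Y)
  type : ∀ i, HasK3Type p m (e i) (n i) (α i) H (F (X i))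
  polarized : ∀ i, IsPolarized H (X i)
  algebraic : ∀ β : K, HasEigenvalueOf (H.pull (F Z)) β → IsAlgebraic ℚ β
  ne_zero : χ.coeff 0 ≠ 0
  slopes : ∀ β ρ : K, HasEigenvalueOf (H.pull (F Z)) β → aeval ρ χ = 0 →
    HasSlopesIn p m Γ (β * ρ)

end defs

end Pool.Agent.Helper17.BG
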