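import Pool.Agent.Helper17.BG.K3Defs
import Pool.Agent.Helper17.BP.K3
import Pool.Agent.N876.CG.ModE
import Pool.Agent.W484.CK.Main
import Pool.Agent.W484.CK.Motivic

/-!
# Systems of varieties of K3 type, relative to an arbitrary variety; cycle classes
-/

set_option autoImplicit false

open Finset Polynomial CategoryTheory AlgebraicGeometry NumberField
open scoped TensorProduct

namespace Pool.Agent.Helper17.BG

open Pool.Agent.H914 Pool.Agent.H914.VarClass Pool.Agent.H914.VarClass.Obj Pool.Agent.W492.BB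
  Pool.Agent.W484.CK Pool.Agent.N876.GB3 Pool.Agent.N179.TL Pool.Agent.W517.K3

theorem isWord_eq {p : ℕ} [Fact p.Prime] {K : Type} [Field K] [CharZero K] {E : Type} [Field E]
    [NumberField E] [IsCMField E] {m e n : ℕ} {α : E} {μ : K} :
    IsWord p m e n α μ ↔ Pool.Agent.Helper17.BP.IsWord p m e n α μ := Iff.rfl

section main

variable {κ : Type} [Field κ] [Fintype κ] {𝒱 : VarClass κ} {A : TheoryData.{0, 0, 0} 𝒱 ℚ}
  [IsChow A] {K : Type} [Field K] [IsAlgClosed K] [CharZero K] {H : WeilTheoryData.{0, 0, 0} A K}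
  [IsWeil H] {p m : ℕ} [Fact p.Prime] {r : ℕ} {E : Fin r → Type}
  [∀ i, Field (E i)] [∀ i, NumberField (E i)] [∀ i, IsCMField (E i)] {α : ∀ i, E i}
  {e h b n : Fin r → ℕ} {Γ : Set ℚ} {F : ∀ X : 𝒱.Obj, X ⟶ X} {X : Fin r → 𝒱.Obj} {Z : 𝒱.Obj}
  {χ : ℚ[X]}

omit [Field κ] in
theorem m_pos (hD : IsK3Data κ p m α e h b n Γ) [Nontrivial κ] : 0 < m := by
  rcases Nat.eq_zero_or_pos m with h0 | h0
  · have h1 := hD.card
    rw [h0, pow_zero] at h1
    have := Fintype.one_lt_card (α := κ)
    omega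
  · exact h0

/-- The relative version. -/
theorem cr_k3 (hD : IsK3Data κ p m α e h b n Γ) (hS : IsK3System p m α e n Γ H F X Z χ) :
    Pool.Agent.N876.CG.Cr H F (Fintype.card κ) X Z
      (fun i => {μ | IsWord p m (e i) (n i) (α i) μ}) {ρ | aeval ρ χ = 0} := by
  have hm := m_pos hD
  have hq : ((Fintype.card κ : ℕ) : K) = ((p : ℕ) : K) ^ m := by
    rw [hD.card, Nat.cast_pow]
  have hα0 : ∀ i, α i ≠ 0 := fun i =>
    Pool.Agent.TH121.KT.alpha_ne (hD.number i).frob.unitary
  exact
    { std := isStandard_bridge hS.standard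
      one_lt := Fintype.one_lt_card
      frob := fun X => isFrobenius_bridge (hS.frobenius X)
      prod := hS.product
      cg := fun i => by
        obtain ⟨T, hT, h1, h2⟩ := hS.type i
        exact ⟨T, hT, h1, h2⟩
      int := fun i μ hμ => Pool.Agent.Helper17.BP.isWord_integral (hD.pos i) (isWord_eq.1 hμ)
      ne := fun i μ hμ => Pool.Agent.Helper17.BP.isWord_ne_zero (hD.pos i) (hα0 i) (isWord_eq.1 hμ)
      intZ := fun β hβ => (hS.algebraic β hβ).isIntegral
      res := by
        rw [hq]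
        refine Pool.Agent.Helper17.BP.nores_k3 hm hD.pos hD.number hD.admissible (fun i μ hμ => hμ) ?_
        rintro _ ⟨β, ρ, hβ, hρ, rfl⟩
        exact Pool.Agent.Helper17.BP.hasSlopesIn_pps (hS.slopes β ρ hβ hρ)
      res1 := by
        rw [hq]
        refine Pool.Agent.Helper17.BP.nores_k3 hm hD.pos hD.number hD.admissible (fun i μ hμ => hμ) ?_
        rintro _ rfl
        exact PPs_one hD.zero_mem m }

end main

end Pool.Agent.Helper17.BG
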